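import Mathlib

namespace Pool.Agent.Results.MP_a3b474_co.ThreeScales

/-- The three symbols a scale can show. -/
inductive Outcome
  | left | right | balance
  deriving DecidableEq

/-- The correct outcome of weighing `L` against `R` if `c` is the (lighter) fake coin. -/
def truth {C : Type} [DecidableEq C] (L R : Finset C) (c : C) : Outcome :=
  if c ∈ L then Outcome.left else if c ∈ R then Outcome.right else Outcome.balance

/-- Adaptive strategies: name a coin, or weigh two disjoint sets of equal size on a scale and
continue depending on the outcome. -/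
inductive Strategy (C : Type) : Type
  | guess (c : C) : Strategy C
  | weigh (s : Fin 3) (L R : Finset C) (hdisj : Disjoint L R) (hcard : L.card = R.card)
      (next : Outcome → Strategy C) : Strategy C

variable {C : Type} [DecidableEq C]

/-- Worst-case number of weighings. -/
def Strategy.depth {C : Type} : Strategy C → ℕ
  | .guess _ => 0
  | .weigh _ _ _ _ _ next =>
      1 + max (next Outcome.left).depth
        (max (next Outcome.right).depth (next Outcome.balance).depth)

/-- The strategy names `c` if `c` is fake and scale `b` is broken, whatever scale `b` shows. -/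
def Strategy.Succeeds {C : Type} [DecidableEq C] : Strategy C → C → Fin 3 → Prop
  | .guess c', c, _ => c' = c
  | .weigh s L R _ _ next, c, b =>
      if s = b then ∀ o, (next o).Succeeds c b else (next (truth L R c)).Succeeds c b

/-- `w n`: least worst-case number of weighings of a successful strategy for `3 ^ (2n)` coins. -/
noncomputable def w (n : ℕ) : ℕ :=
  sInf {m | ∃ T : Strategy (Fin (3 ^ (2 * n))), T.depth ≤ m ∧ ∀ c b, T.Succeeds c b}

/-! ### Upper bound -/

/-- `m` weighings suffice if the coins in `A` are consistent with all scales and the coins in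
`X b` only with `b` broken. -/
def Wins {C : Type} [DecidableEq C] (m : ℕ) (A : Finset C) (X : Fin 3 → Finset C) : Prop :=
  ∃ T : Strategy C, T.depth ≤ m ∧ (∀ c ∈ A, ∀ b, T.Succeeds c b) ∧
    ∀ b, ∀ c ∈ X b, T.Succeeds c b

lemma Wins.mono {m m' : ℕ} {A A' : Finset C} {X X' : Fin 3 → Finset C} (hm : m ≤ m')
    (hA : A' ⊆ A) (hX : ∀ b, X' b ⊆ X b) (h : Wins m A X) : Wins m' A' X' := by
  obtain ⟨T, h1, h2, h3⟩ := h
  exact ⟨T, h1.trans hm, fun c hc b => h2 c (hA hc) b, fun b c hc => h3 b c (hX b hc)⟩

lemma Wins.step {m : ℕ} {A : Finset C} {X : Fin 3 → Finset C} (s : Fin 3) (L R : Finset C)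
    (hd : Disjoint L R) (hc : L.card = R.card)
    (h : ∀ o, Wins m (A.filter (fun c => truth L R c = o))
      (fun b => if b = s then X b ∪ A.filter (fun c => truth L R c ≠ o)
        else (X b).filter (fun c => truth L R c = o))) : Wins (m + 1) A X := by
  choose T hT using h
  refine ⟨.weigh s L R hd hc T, ?_, ?_, ?_⟩
  · simp only [Strategy.depth]
    have h1 := (hT Outcome.left).1
    have h2 := (hT Outcome.right).1
    have h3 := (hT Outcome.balance).1
    omega
  · intro c hcA b
    simp only [Strategy.Succeeds]
    split_ifs with hsb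
    · intro o
      by_cases ho : truth L R c = o
      · exact (hT o).2.1 c (Finset.mem_filter.2 ⟨hcA, ho⟩) b
      · refine (hT o).2.2 b c ?_
        change c ∈ (if b = s then X b ∪ A.filter (fun c => truth L R c ≠ o)
          else (X b).filter (fun c => truth L R c = o))
        rw [if_pos hsb.symm]
        exact Finset.mem_union_right _ (Finset.mem_filter.2 ⟨hcA, ho⟩)
    · exact (hT _).2.1 c (Finset.mem_filter.2 ⟨hcA, rfl⟩) b
  · intro b c hcX
    simp only [Strategy.Succeeds]
    split_ifs with hsb
    · intro o
      refine (hT o).2.2 b c ?_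
      change c ∈ (if b = s then X b ∪ A.filter (fun c => truth L R c ≠ o)
        else (X b).filter (fun c => truth L R c = o))
      rw [if_pos hsb.symm]
      exact Finset.mem_union_left _ hcX
    · refine (hT _).2.2 b c ?_
      change c ∈ (if b = s then X b ∪ A.filter (fun c' => truth L R c' ≠ truth L R c)
        else (X b).filter (fun c' => truth L R c' = truth L R c))
      rw [if_neg (Ne.symm hsb)]
      exact Finset.mem_filter.2 ⟨hcX, rfl⟩

/-- Split a set of `3 a` coins in three parts. -/
lemma exists_split (Z : Finset C) (a : ℕ) (hZ : Z.card = 3 * a) :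
    ∃ L R : Finset C, L ⊆ Z ∧ R ⊆ Z ∧ Disjoint L R ∧ L.card = a ∧ R.card = a := by
  obtain ⟨L, hL, hLc⟩ := Finset.exists_subset_card_eq (s := Z) (n := a) (by omega)
  have h1 : (Z \ L).card = 2 * a := by
    rw [Finset.card_sdiff_of_subset hL]; omega
  obtain ⟨R, hR, hRc⟩ := Finset.exists_subset_card_eq (s := Z \ L) (n := a) (by omega)
  refine ⟨L, R, hL, hR.trans Finset.sdiff_subset, ?_, hLc, hRc⟩
  rw [Finset.disjoint_right]
  intro x hx
  exact (Finset.mem_sdiff.1 (hR hx)).2

lemma truth_left {L R : Finset C} {c : C} : truth L R c = Outcome.left ↔ c ∈ L := by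
  unfold truth
  split_ifs <;> simp_all

lemma truth_right {L R : Finset C} (hd : Disjoint L R) {c : C} :
    truth L R c = Outcome.right ↔ c ∈ R := by
  unfold truth
  have h : c ∈ L → c ∉ R := fun h => Finset.disjoint_left.1 hd h
  split_ifs <;> simp_all

lemma truth_balance {L R : Finset C} {c : C} :
    truth L R c = Outcome.balance ↔ c ∉ L ∧ c ∉ R := by
  unfold truth
  split_ifs <;> simp_all

/-- If a set `Z` of `3 a` coins meets each pan in `a` coins, every outcome leaves `a` of them. -/
lemma card_filter_truth {L R Z : Finset C} {a : ℕ} (hd : Disjoint L R) (hZ : Z.card = 3 * a)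
    (hL : (Z ∩ L).card = a) (hR : (Z ∩ R).card = a) (o : Outcome) :
    (Z.filter (fun c => truth L R c = o)).card = a := by
  have e1 : Z.filter (fun c => truth L R c = Outcome.left) = Z ∩ L := by
    ext c; simp [truth_left]
  have e2 : Z.filter (fun c => truth L R c = Outcome.right) = Z ∩ R := by
    ext c; simp [truth_right hd]
  have e3 : Z.filter (fun c => truth L R c = Outcome.balance) = Z \ ((Z ∩ L) ∪ (Z ∩ R)) := by
    ext c
    simp only [Finset.mem_filter, truth_balance, Finset.mem_sdiff, Finset.mem_union,
      Finset.mem_inter]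
    tauto
  cases o with
  | left => rw [e1, hL]
  | right => rw [e2, hR]
  | balance =>
    rw [e3, Finset.card_sdiff_of_subset (Finset.union_subset Finset.inter_subset_left
      Finset.inter_subset_left), Finset.card_union_of_disjoint, hL, hR, hZ]
    · omega
    · exact Finset.disjoint_of_subset_left Finset.inter_subset_right
        (Finset.disjoint_of_subset_right Finset.inter_subset_right hd)

/-- Search with a scale known to be true. -/
lemma search (s : Fin 3) : ∀ (m : ℕ) (Y : Finset C), Y.card = 3 ^ m → ∀ X : Fin 3 → Finset C,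
    (∀ b, b ≠ s → X b ⊆ Y) → X s = ∅ → Wins m ∅ X := by
  intro m
  induction m with
  | zero =>
    intro Y hY X hX hs
    rw [pow_zero, Finset.card_eq_one] at hY
    obtain ⟨y, rfl⟩ := hY
    refine ⟨.guess y, by simp [Strategy.depth], by simp, ?_⟩
    intro b c hc
    simp only [Strategy.Succeeds]
    by_cases hb : b = s
    · subst hb
      rw [hs] at hc
      simp at hc
    · exact (Finset.mem_singleton.1 (hX b hb hc)).symm
  | succ m ih =>
    intro Y hY X hX hs
    have hY3 : Y.card = 3 * 3 ^ m := by rw [hY]; ring
    obtain ⟨L, R, hL, hR, hd, hLc, hRc⟩ := exists_split Y (3 ^ m) hY3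
    refine Wins.step s L R hd (by rw [hLc, hRc]) ?_
    intro o
    refine ih (Y.filter (fun c => truth L R c = o)) ?_ _ ?_ ?_
    · refine card_filter_truth hd hY3 ?_ ?_ o
      · rw [Finset.inter_eq_right.2 hL, hLc]
      · rw [Finset.inter_eq_right.2 hR, hRc]
    · intro b hb
      simp only [if_neg hb]
      exact Finset.filter_subset_filter _ (hX b hb)
    · simp [hs]

/-- Sizes of the suspect sets: `3 ^ k` coins consistent with everything, `(3 ^ u t - 1) 3 ^ k`
coins consistent only with scale `t` broken. -/
def St {C : Type} [DecidableEq C] (k : ℕ) (u : Fin 3 → ℕ) (A : Finset C)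
    (X : Fin 3 → Finset C) : Prop :=
  A.card = 3 ^ k ∧ (∀ t, (X t).card = (3 ^ u t - 1) * 3 ^ k) ∧ (∀ t, Disjoint A (X t)) ∧
    ∀ s t, s ≠ t → Disjoint (X s) (X t)

/-- `b` weighings suffice for all states of the given sizes. -/
def SWins (C : Type) [DecidableEq C] (b k : ℕ) (u : Fin 3 → ℕ) : Prop :=
  ∀ (A : Finset C) (X : Fin 3 → Finset C), St k u A X → Wins b A X

lemma SWins.mono {b b' k : ℕ} {u : Fin 3 → ℕ} (hb : b ≤ b') (h : SWins C b k u) :
    SWins C b' k u := fun A X hs =>
  (h A X hs).mono hb (Finset.Subset.refl _) (fun _ => Finset.Subset.refl _)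

/-- Split a disjoint family evenly in three by one weighing. -/
lemma split_all {ι : Type} [Fintype ι] [DecidableEq ι] (P : ι → Finset C)
    (hP : ∀ i j, i ≠ j → Disjoint (P i) (P j)) (e : ι → ℕ) (he : ∀ i, (P i).card = 3 * e i) :
    ∃ L R : Finset C, Disjoint L R ∧ L.card = R.card ∧
      ∀ i o, ((P i).filter (fun c => truth L R c = o)).card = e i := by
  choose Lf Rf hL hR hd hLc hRc using fun i => exists_split (P i) (e i) (he i)
  have hdis : ∀ {i j : ι} {U V : Finset C}, i ≠ j → U ⊆ P i → V ⊆ P j → Disjoint U V :=
    fun hij hU hV => Finset.disjoint_of_subset_left hU (Finset.disjoint_of_subset_right hV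
      (hP _ _ hij))
  have hi : ∀ (S : ι → Finset C), (∀ i, S i ⊆ P i) → ∀ i, P i ∩ Finset.univ.biUnion S = S i := by
    intro S hS i
    ext x
    simp only [Finset.mem_inter, Finset.mem_biUnion, Finset.mem_univ, true_and]
    constructor
    · rintro ⟨hx, j, hj⟩
      by_cases hij : i = j
      · subst hij; exact hj
      · exact absurd (hS j hj) (Finset.disjoint_left.1 (hP i j hij) hx)
    · intro hx
      exact ⟨hS i hx, i, hx⟩
  have hDLR : Disjoint (Finset.univ.biUnion Lf) (Finset.univ.biUnion Rf) := by
    rw [Finset.disjoint_biUnion_left]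
    intro i _
    rw [Finset.disjoint_biUnion_right]
    intro j _
    by_cases hij : i = j
    · subst hij; exact hd i
    · exact hdis hij (hL i) (hR j)
  refine ⟨Finset.univ.biUnion Lf, Finset.univ.biUnion Rf, hDLR, ?_, ?_⟩
  · rw [Finset.card_biUnion, Finset.card_biUnion]
    · exact Finset.sum_congr rfl fun i _ => by rw [hLc, hRc]
    · intro i _ j _ hij; exact hdis hij (hR i) (hR j)
    · intro i _ j _ hij; exact hdis hij (hL i) (hL j)
  · intro i o
    refine card_filter_truth hDLR (he i) ?_ ?_ o
    · rw [hi Lf hL i, hLc]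
    · rw [hi Rf hR i, hRc]

omit [DecidableEq C] in
lemma card_filter_ne (A : Finset C) (f : C → Outcome) (o : Outcome) {k : ℕ}
    (hA : A.card = 3 ^ (k + 1)) (h : (A.filter (fun c => f c = o)).card = 3 ^ k) :
    (A.filter (fun c => f c ≠ o)).card = 2 * 3 ^ k := by
  have h1 := Finset.card_filter_add_card_filter_not (s := A) (fun c => f c = o)
  rw [h, hA, pow_succ] at h1
  have h2 : (A.filter (fun c => f c ≠ o)).card = (A.filter (fun c => ¬ f c = o)).card := rfl
  omega

lemma size_succ (u k : ℕ) : (3 ^ u - 1) * 3 ^ (k + 1) + 2 * 3 ^ k = (3 ^ (u + 1) - 1) * 3 ^ k := by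
  have hpos : 0 < 3 ^ u := by positivity
  obtain ⟨q, hq⟩ : ∃ q, 3 ^ u = q + 1 := ⟨3 ^ u - 1, by omega⟩
  rw [pow_succ 3 u, hq]
  have h1 : q + 1 - 1 = q := by omega
  have h2 : (q + 1) * 3 - 1 = 3 * q + 2 := by omega
  rw [h1, h2]
  ring

/-- One weighing on scale `s` that splits everything evenly. -/
lemma even_step {b k : ℕ} {u : Fin 3 → ℕ} (s : Fin 3)
    (h : SWins C b k (Function.update u s (u s + 1))) : SWins C (b + 1) (k + 1) u := by
  rintro A X ⟨hA, hX, hAX, hXX⟩
  let P : Option (Fin 3) → Finset C := fun i => match i with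
    | none => A
    | some t => X t
  let e : Option (Fin 3) → ℕ := fun i => match i with
    | none => 3 ^ k
    | some t => (3 ^ u t - 1) * 3 ^ k
  obtain ⟨L, R, hd, hc, hf⟩ := split_all P (by
      intro i j hij
      cases i with
      | none =>
        cases j with
        | none => exact absurd rfl hij
        | some t => exact hAX t
      | some t =>
        cases j with
        | none => exact (hAX t).symm
        | some t' => exact hXX t t' (fun h => hij (by rw [h]))) e (by
      intro i
      cases i with
      | none => change A.card = 3 * 3 ^ k; rw [hA]; ring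
      | some t => change (X t).card = 3 * ((3 ^ u t - 1) * 3 ^ k); rw [hX]; ring)
  refine Wins.step s L R hd hc ?_
  intro o
  have hA' : (A.filter (fun c => truth L R c = o)).card = 3 ^ k := hf none o
  have hne := card_filter_ne A (truth L R) o hA hA'
  apply h
  refine ⟨hA', ?_, ?_, ?_⟩
  · intro t
    by_cases hts : t = s
    · subst hts
      simp only [if_true, Function.update_self]
      rw [Finset.card_union_of_disjoint, hne, hX, size_succ]
      exact Finset.disjoint_of_subset_right (Finset.filter_subset _ _) (hAX t).symm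
    · simp only [if_neg hts, Function.update_of_ne hts]
      exact hf (some t) o
  · intro t
    by_cases hts : t = s
    · simp only [if_pos hts]
      rw [Finset.disjoint_union_right]
      refine ⟨Finset.disjoint_of_subset_left (Finset.filter_subset _ _) (hAX t), ?_⟩
      rw [Finset.disjoint_left]
      intro c h1 h2
      exact (Finset.mem_filter.1 h2).2 (Finset.mem_filter.1 h1).2
    · simp only [if_neg hts]
      exact Finset.disjoint_of_subset_left (Finset.filter_subset _ _)
        (Finset.disjoint_of_subset_right (Finset.filter_subset _ _) (hAX t))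
  · have key : ∀ t, t ≠ s → Disjoint (X s ∪ A.filter (fun c => truth L R c ≠ o))
        ((X t).filter (fun c => truth L R c = o)) := by
      intro t hts
      refine Finset.disjoint_of_subset_right (Finset.filter_subset _ _) ?_
      rw [Finset.disjoint_union_left]
      exact ⟨hXX s t hts.symm, Finset.disjoint_of_subset_left (Finset.filter_subset _ _) (hAX t)⟩
    intro t t' htt
    by_cases h1 : t = s
    · subst h1
      simp only [if_true, if_neg htt.symm]
      exact key t' htt.symm
    · by_cases h2 : t' = s
      · subst h2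
        simp only [if_true, if_neg h1]
        exact (key t h1).symm
      · simp only [if_neg h1, if_neg h2]
        exact Finset.disjoint_of_subset_left (Finset.filter_subset _ _)
          (Finset.disjoint_of_subset_right (Finset.filter_subset _ _) (hXX t t' htt))

lemma fill {b k a : ℕ} (z : Fin 3) (h : SWins C b k (fun _ => a)) :
    ∀ j ≤ a, SWins C (b + j) (k + j) (fun t => if t = z then a - j else a) := by
  intro j
  induction j with
  | zero =>
    intro _
    have : (fun t : Fin 3 => if t = z then a - 0 else a) = fun _ => a := by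
      funext t; split_ifs <;> simp
    rw [this]
    exact h
  | succ j ih =>
    intro hj
    have h1 := ih (by omega)
    refine even_step z ?_
    have : Function.update (fun t : Fin 3 => if t = z then a - (j + 1) else a) z
        ((fun t : Fin 3 => if t = z then a - (j + 1) else a) z + 1)
        = fun t => if t = z then a - j else a := by
      funext t
      by_cases ht : t = z
      · subst ht
        simp only [Function.update_self, if_true]
        omega
      · simp only [Function.update_of_ne ht, if_neg ht]
    rw [this]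
    exact h1

/-- After a dropping weighing: enlarge the surviving suspect set to its nominal size. -/
lemma drop_aux [Fintype C] {b k a : ℕ} (hN : 2 * 3 ^ (k + 1 + a) ≤ Fintype.card C) (z : Fin 3)
    (hz : z ≠ 2) (h : SWins C b k (fun t => if t = z then 0 else a + 1)) (A Z Y : Finset C)
    (hA : A.card = 3 ^ k) (hZ : Z.card = (3 ^ (a + 1) - 1) * 3 ^ k)
    (hY : Y.card ≤ (3 ^ (a + 1) - 1) * 3 ^ k) (d1 : Disjoint A Z) (d2 : Disjoint A Y)
    (d3 : Disjoint Z Y) (X : Fin 3 → Finset C) (hXz : X z = ∅) (hX2 : X 2 ⊆ Z)
    (hXy : ∀ t, t ≠ z → t ≠ 2 → X t ⊆ Y) : Wins b A X := by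
  have hsub : Y ⊆ Finset.univ \ (A ∪ Z) := by
    intro c hc
    rw [Finset.mem_sdiff, Finset.mem_union]
    refine ⟨Finset.mem_univ _, ?_⟩
    rintro (h1 | h1)
    · exact Finset.disjoint_left.1 d2 h1 hc
    · exact Finset.disjoint_left.1 d3 h1 hc
  have hAZ : (A ∪ Z).card = 3 ^ (a + 1) * 3 ^ k := by
    rw [Finset.card_union_of_disjoint d1, hA, hZ]
    have hpos : 0 < 3 ^ (a + 1) := by positivity
    obtain ⟨q, hq⟩ : ∃ q, 3 ^ (a + 1) = q + 1 := ⟨3 ^ (a + 1) - 1, by omega⟩
    rw [hq, Nat.add_sub_cancel]
    ring
  have hbig : (3 ^ (a + 1) - 1) * 3 ^ k ≤ (Finset.univ \ (A ∪ Z)).card := by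
    rw [Finset.card_sdiff_of_subset (Finset.subset_univ _), Finset.card_univ, hAZ]
    have h1 : 2 * 3 ^ (k + 1 + a) = 3 ^ (a + 1) * 3 ^ k + 3 ^ (a + 1) * 3 ^ k := by
      rw [← pow_add]
      have : a + 1 + k = k + 1 + a := by ring
      rw [this]; ring
    have h2 : (3 ^ (a + 1) - 1) * 3 ^ k ≤ 3 ^ (a + 1) * 3 ^ k :=
      Nat.mul_le_mul_right _ (Nat.sub_le _ _)
    omega
  obtain ⟨W, hYW, hW, hWc⟩ := Finset.exists_subsuperset_card_eq hsub hY hbig
  have hWA : Disjoint A W := by
    rw [Finset.disjoint_left]
    intro c h1 h2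
    exact (Finset.mem_sdiff.1 (hW h2)).2 (Finset.mem_union_left _ h1)
  have hWZ : Disjoint Z W := by
    rw [Finset.disjoint_left]
    intro c h1 h2
    exact (Finset.mem_sdiff.1 (hW h2)).2 (Finset.mem_union_right _ h1)
  have hst : St k (fun t => if t = z then 0 else a + 1) A
      (fun t => if t = z then ∅ else if t = 2 then Z else W) := by
    refine ⟨hA, ?_, ?_, ?_⟩
    · intro t
      by_cases h1 : t = z
      · simp [h1]
      · by_cases h2 : t = 2
        · simp only [if_neg h1, if_pos h2]; exact hZ
        · simp only [if_neg h1, if_neg h2]; exact hWc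
    · intro t
      by_cases h1 : t = z
      · simp [h1]
      · by_cases h2 : t = 2
        · simp only [if_neg h1, if_pos h2]; exact d1
        · simp only [if_neg h1, if_neg h2]; exact hWA
    · intro s t hst
      by_cases h1 : s = z
      · simp [h1]
      · by_cases h1' : t = z
        · simp [h1']
        · simp only [if_neg h1, if_neg h1']
          by_cases h2 : s = 2
          · have h3 : t ≠ 2 := fun h => hst (h2.trans h.symm)
            simp only [if_pos h2, if_neg h3]; exact hWZ
          · by_cases h3 : t = 2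
            · simp only [if_neg h2, if_pos h3]; exact hWZ.symm
            · exfalso
              have key : ∀ z s t : Fin 3, z ≠ 2 → s ≠ t → ¬ s = z → ¬ t = z → ¬ s = 2 →
                  ¬ t = 2 → False := by decide
              exact key z s t hz hst h1 h1' h2 h3
  refine (h A _ hst).mono le_rfl (Finset.Subset.refl _) ?_
  intro t
  by_cases h1 : t = z
  · subst h1
    rw [hXz]
    exact Finset.empty_subset _
  · by_cases h2 : t = 2
    · subst h2
      simp only [if_neg h1, if_true]
      exact hX2
    · simp only [if_neg h1, if_neg h2]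
      exact (hXy t h1 h2).trans hYW

/-- A weighing on scale `2` that separates the suspect sets of scales `0` and `1`. -/
lemma drop_step [Fintype C] {b k a : ℕ} (hN : 2 * 3 ^ (k + 1 + a) ≤ Fintype.card C)
    (h : ∀ z : Fin 3, z ≠ 2 → SWins C b k (fun t => if t = z then 0 else a + 1)) :
    SWins C (b + 1) (k + 1) (fun _ => a) := by
  rintro A X ⟨hA, hX, hAX, hXX⟩
  obtain ⟨LA, RA, hLA, hRA, hdA, hLAc, hRAc⟩ := exists_split A (3 ^ k) (by rw [hA]; ring)
  have d01 := hXX 0 1 (by decide)
  have hd : Disjoint (LA ∪ X 0) (RA ∪ X 1) := by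
    rw [Finset.disjoint_union_left, Finset.disjoint_union_right, Finset.disjoint_union_right]
    exact ⟨⟨hdA, Finset.disjoint_of_subset_left hLA (hAX 1)⟩,
      ⟨(Finset.disjoint_of_subset_left hRA (hAX 0)).symm, d01⟩⟩
  have hc : (LA ∪ X 0).card = (RA ∪ X 1).card := by
    rw [Finset.card_union_of_disjoint (Finset.disjoint_of_subset_left hLA (hAX 0)),
      Finset.card_union_of_disjoint (Finset.disjoint_of_subset_left hRA (hAX 1)), hLAc, hRAc,
      hX 0, hX 1]
  have hi : ∀ {U V : Finset C}, U ⊆ A → Disjoint A V → A ∩ (U ∪ V) = U := by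
    intro U V hU hV
    ext x
    simp only [Finset.mem_inter, Finset.mem_union]
    constructor
    · rintro ⟨hx, h1 | h1⟩
      · exact h1
      · exact absurd h1 (Finset.disjoint_left.1 hV hx)
    · intro h1
      exact ⟨hU h1, Or.inl h1⟩
  refine Wins.step 2 (LA ∪ X 0) (RA ∪ X 1) hd hc ?_
  intro o
  have hA' : (A.filter (fun c => truth (LA ∪ X 0) (RA ∪ X 1) c = o)).card = 3 ^ k := by
    refine card_filter_truth hd (by rw [hA]; ring) ?_ ?_ o
    · rw [hi hLA (hAX 0), hLAc]
    · rw [hi hRA (hAX 1), hRAc]
  have hne := card_filter_ne A (truth (LA ∪ X 0) (RA ∪ X 1)) o hA hA'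
  set Z := X 2 ∪ A.filter (fun c => truth (LA ∪ X 0) (RA ∪ X 1) c ≠ o) with hZdef
  have hZ : Z.card = (3 ^ (a + 1) - 1) * 3 ^ k := by
    rw [hZdef, Finset.card_union_of_disjoint, hne, hX, size_succ]
    exact Finset.disjoint_of_subset_right (Finset.filter_subset _ _) (hAX 2).symm
  have hsmall : (3 ^ a - 1) * 3 ^ (k + 1) ≤ (3 ^ (a + 1) - 1) * 3 ^ k := by
    have := size_succ a k
    omega
  have d1 : Disjoint (A.filter (fun c => truth (LA ∪ X 0) (RA ∪ X 1) c = o)) Z := by
    rw [hZdef, Finset.disjoint_union_right]
    refine ⟨Finset.disjoint_of_subset_left (Finset.filter_subset _ _) (hAX 2), ?_⟩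
    rw [Finset.disjoint_left]
    intro c h1 h2
    exact (Finset.mem_filter.1 h2).2 (Finset.mem_filter.1 h1).2
  have dZ : ∀ t, t ≠ 2 → Disjoint Z (X t) := by
    intro t ht
    rw [hZdef, Finset.disjoint_union_left]
    exact ⟨hXX 2 t ht.symm, Finset.disjoint_of_subset_left (Finset.filter_subset _ _) (hAX t)⟩
  have dA : ∀ t, Disjoint (A.filter (fun c => truth (LA ∪ X 0) (RA ∪ X 1) c = o)) (X t) :=
    fun t => Finset.disjoint_of_subset_left (Finset.filter_subset _ _) (hAX t)
  -- the dropped class `z` and the kept class `y`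
  have hdrop : ∃ z y : Fin 3, z ≠ 2 ∧ y ≠ 2 ∧ (∀ t, t ≠ z → t ≠ 2 → t = y) ∧
      (X z).filter (fun c => truth (LA ∪ X 0) (RA ∪ X 1) c = o) = ∅ := by
    have e0 : ∀ c ∈ X 0, truth (LA ∪ X 0) (RA ∪ X 1) c = Outcome.left := fun c hc =>
      truth_left.2 (Finset.mem_union_right _ hc)
    have e1 : ∀ c ∈ X 1, truth (LA ∪ X 0) (RA ∪ X 1) c = Outcome.right := fun c hc =>
      (truth_right hd).2 (Finset.mem_union_right _ hc)
    cases o with
    | left =>
      refine ⟨1, 0, by decide, by decide, by decide, ?_⟩
      rw [Finset.filter_eq_empty_iff]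
      intro c hc
      rw [e1 c hc]; decide
    | right =>
      refine ⟨0, 1, by decide, by decide, by decide, ?_⟩
      rw [Finset.filter_eq_empty_iff]
      intro c hc
      rw [e0 c hc]; decide
    | balance =>
      refine ⟨0, 1, by decide, by decide, by decide, ?_⟩
      rw [Finset.filter_eq_empty_iff]
      intro c hc
      rw [e0 c hc]; decide
  obtain ⟨z, y, hz, hy, hzy, hemp⟩ := hdrop
  refine drop_aux hN z hz (h z hz) _ Z (X y) hA' hZ (by rw [hX]; exact hsmall) d1 (dA y) (dZ y hy) _
    ?_ ?_ ?_
  · simp only [if_neg hz]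
    exact hemp
  · simp only [if_true]
    exact Finset.Subset.refl _
  · intro t h1 h2
    have := hzy t h1 h2
    subst this
    simp only [if_neg h2]
    exact Finset.filter_subset _ _

/-- Two suspect sets compared on the third scale: close the block. -/
lemma close_step {B k a : ℕ} (z : Fin 3) (hf : SWins C B k (fun _ => 0)) (hB : k + a ≤ B) :
    SWins C (B + 1) k (fun t => if t = z then 0 else a) := by
  rintro A X ⟨hA, hX, hAX, hXX⟩
  have hXz : X z = ∅ := by
    have := hX z
    simp at this
    exact this
  have hpick : ∀ z : Fin 3, ∃ p q : Fin 3, p ≠ q ∧ p ≠ z ∧ q ≠ z ∧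
      ∀ t, t = p ∨ t = q ∨ t = z := by decide
  obtain ⟨p, q, hpq, hpz, hqz, hall⟩ := hpick z
  have hXp : (X p).card = (3 ^ a - 1) * 3 ^ k := by rw [hX]; simp [hpz]
  have hXq : (X q).card = (3 ^ a - 1) * 3 ^ k := by rw [hX]; simp [hqz]
  have dpq := hXX p q hpq
  have hsize : ∀ Y : Finset C, Y.card = (3 ^ a - 1) * 3 ^ k → Disjoint Y A →
      (Y ∪ A).card = 3 ^ (k + a) := by
    intro Y hY hd
    rw [Finset.card_union_of_disjoint hd, hY, hA, pow_add]
    have hpos : 0 < 3 ^ a := by positivity
    obtain ⟨r, hr⟩ : ∃ r, 3 ^ a = r + 1 := ⟨3 ^ a - 1, by omega⟩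
    rw [hr, Nat.add_sub_cancel]
    ring
  refine Wins.step z (X p) (X q) dpq (by rw [hXp, hXq]) ?_
  intro o
  cases o with
  | left =>
    refine Wins.mono hB (A := ∅) (X := fun b => if b = q then ∅ else X p ∪ A) ?_ ?_
      (search q (k + a) (X p ∪ A) (hsize _ hXp (hAX p).symm) _ (by intro b hb; simp [hb]) (by simp))
    · intro c hc
      rw [Finset.mem_filter, truth_left] at hc
      exact absurd hc.2 (Finset.disjoint_left.1 (hAX p) hc.1)
    · intro t c hc
      rcases hall t with rfl | rfl | rfl
      · rw [if_neg hpz] at hc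
        simp only [if_neg hpq]
        exact Finset.mem_union_left _ (Finset.mem_filter.1 hc).1
      · rw [if_neg hqz, Finset.mem_filter, truth_left] at hc
        exact absurd hc.1 (Finset.disjoint_left.1 dpq hc.2)
      · rw [if_pos rfl, hXz, Finset.empty_union] at hc
        simp only [if_neg hqz.symm]
        exact Finset.mem_union_right _ (Finset.mem_filter.1 hc).1
  | right =>
    refine Wins.mono hB (A := ∅) (X := fun b => if b = p then ∅ else X q ∪ A) ?_ ?_
      (search p (k + a) (X q ∪ A) (hsize _ hXq (hAX q).symm) _ (by intro b hb; simp [hb]) (by simp))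
    · intro c hc
      rw [Finset.mem_filter, truth_right dpq] at hc
      exact absurd hc.2 (Finset.disjoint_left.1 (hAX q) hc.1)
    · intro t c hc
      rcases hall t with rfl | rfl | rfl
      · rw [if_neg hpz, Finset.mem_filter, truth_right dpq] at hc
        exact absurd hc.2 (Finset.disjoint_left.1 dpq hc.1)
      · rw [if_neg hqz] at hc
        simp only [if_neg hpq.symm]
        exact Finset.mem_union_left _ (Finset.mem_filter.1 hc).1
      · rw [if_pos rfl, hXz, Finset.empty_union] at hc
        simp only [if_neg hpz.symm]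
        exact Finset.mem_union_right _ (Finset.mem_filter.1 hc).1
  | balance =>
    have hst : St k (fun _ => 0) A (fun _ => ∅) := ⟨hA, by simp, by simp, by simp⟩
    refine (hf A _ hst).mono le_rfl (Finset.filter_subset _ _) ?_
    intro t c hc
    rcases hall t with rfl | rfl | rfl
    · rw [if_neg hpz, Finset.mem_filter, truth_balance] at hc
      exact absurd hc.1 hc.2.1
    · rw [if_neg hqz, Finset.mem_filter, truth_balance] at hc
      exact absurd hc.1 hc.2.2
    · rw [if_pos rfl, hXz, Finset.empty_union, Finset.mem_filter] at hc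
      exact absurd (truth_balance.2 ⟨Finset.disjoint_left.1 (hAX p) hc.1,
        Finset.disjoint_left.1 (hAX q) hc.1⟩) hc.2

/-- The case of one suspect set (scale `0`), closed by a weighing on scale `1`. -/
lemma close_one {B k a : ℕ} (hf : SWins C B k (fun _ => 0)) (hB : k + a ≤ B) :
    SWins C (B + 1) k (fun t => if t = 0 then a else 0) := by
  rintro A X ⟨hA, hX, hAX, hXX⟩
  have hX1 : X 1 = ∅ := by
    have := hX 1
    simpa using this
  have hX2 : X 2 = ∅ := by
    have := hX 2
    simpa using this
  have hX0 : (X 0).card = (3 ^ a - 1) * 3 ^ k := by rw [hX]; simp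
  have hev : ∃ m, (3 ^ a - 1) * 3 ^ k = 2 * m := by
    have h1 : 2 ∣ 3 ^ a - 1 := by
      have h2 : 3 - 1 ∣ 3 ^ a - 1 ^ a := by
        simpa using Nat.sub_dvd_pow_sub_pow 3 1 a
      simpa using h2
    obtain ⟨r, hr⟩ := h1
    exact ⟨r * 3 ^ k, by rw [hr]; ring⟩
  obtain ⟨m, hm⟩ := hev
  obtain ⟨H, hH, hHc⟩ := Finset.exists_subset_card_eq (s := X 0) (n := m) (by omega)
  have hH'c : (X 0 \ H).card = m := by rw [Finset.card_sdiff_of_subset hH]; omega
  have hsize : (X 0 ∪ A).card = 3 ^ (k + a) := by
    rw [Finset.card_union_of_disjoint (hAX 0).symm, hX0, hA, pow_add]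
    have hpos : 0 < 3 ^ a := by positivity
    obtain ⟨r, hr⟩ : ∃ r, 3 ^ a = r + 1 := ⟨3 ^ a - 1, by omega⟩
    rw [hr, Nat.add_sub_cancel]
    ring
  have hd : Disjoint H (X 0 \ H) := Finset.disjoint_sdiff
  refine Wins.step 1 H (X 0 \ H) hd (by rw [hHc, hH'c]) ?_
  have hA0 : ∀ c ∈ A, truth H (X 0 \ H) c = Outcome.balance := fun c hc =>
    truth_balance.2 ⟨fun h => Finset.disjoint_left.1 (hAX 0) hc (hH h),
      fun h => Finset.disjoint_left.1 (hAX 0) hc (Finset.mem_sdiff.1 h).1⟩
  have hfail : ∀ o, o ≠ Outcome.balance → Wins B (A.filter (fun c => truth H (X 0 \ H) c = o))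
      (fun b => if b = 1 then X b ∪ A.filter (fun c => truth H (X 0 \ H) c ≠ o)
        else (X b).filter (fun c => truth H (X 0 \ H) c = o)) := by
    intro o ho
    refine Wins.mono hB (A := ∅) (X := fun b => if b = 2 then ∅ else X 0 ∪ A) ?_ ?_
      (search 2 (k + a) (X 0 ∪ A) hsize _ (by intro b hb; simp [hb]) (by simp))
    · intro c hc
      rw [Finset.mem_filter] at hc
      exact absurd ((hA0 c hc.1).symm.trans hc.2).symm ho
    · have hall : ∀ t : Fin 3, t = 0 ∨ t = 1 ∨ t = 2 := by decide
      intro t c hc
      rcases hall t with rfl | rfl | rfl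
      · have hc' : c ∈ (X 0).filter (fun c => truth H (X 0 \ H) c = o) := by simpa using hc
        have := (Finset.mem_filter.1 hc').1
        simp [this]
      · have hc' : c ∈ X 1 ∪ A.filter (fun c => truth H (X 0 \ H) c ≠ o) := by simpa using hc
        rw [hX1, Finset.empty_union] at hc'
        have := (Finset.mem_filter.1 hc').1
        simp [this]
      · have hc' : c ∈ (X 2).filter (fun c => truth H (X 0 \ H) c = o) := by simpa using hc
        rw [hX2] at hc'
        simp at hc'
  intro o
  cases o with
  | left => exact hfail _ (by decide)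
  | right => exact hfail _ (by decide)
  | balance =>
    have hst : St k (fun _ => 0) A (fun _ => ∅) := ⟨hA, by simp, by simp, by simp⟩
    refine (hf A _ hst).mono le_rfl (Finset.filter_subset _ _) ?_
    have hall : ∀ t : Fin 3, t = 0 ∨ t = 1 ∨ t = 2 := by decide
    intro t c hc
    rcases hall t with rfl | rfl | rfl
    · have hc' : c ∈ (X 0).filter (fun c => truth H (X 0 \ H) c = Outcome.balance) := by
        simpa using hc
      rw [Finset.mem_filter, truth_balance] at hc'
      exact absurd (Finset.mem_sdiff.2 ⟨hc'.1, hc'.2.1⟩) hc'.2.2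
    · have hc' : c ∈ X 1 ∪ A.filter (fun c => truth H (X 0 \ H) c ≠ Outcome.balance) := by
        simpa using hc
      rw [hX1, Finset.empty_union, Finset.mem_filter] at hc'
      exact absurd (hA0 c hc'.1) hc'.2
    · have hc' : c ∈ (X 2).filter (fun c => truth H (X 0 \ H) c = Outcome.balance) := by
        simpa using hc
      rw [hX2] at hc'
      simp at hc'

/-- Number of trits that can be handled with overhead `d`. -/
def K (d : ℕ) : ℕ := (d + 1).choose 3 + d - 1

/-- Number of weighings needed to bring two suspect sets to level `a`. -/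
def T (a : ℕ) : ℕ := (a + 1).choose 2 + 1

lemma T_succ (a : ℕ) : T (a + 1) = T a + (a + 1) := by
  unfold T
  rw [Nat.choose_succ_succ' (a + 1) 1, Nat.choose_one_right]
  ring

lemma K_succ {d : ℕ} (hd : 1 ≤ d) : K (d + 1) = K d + T d := by
  have h : (d + 1 + 1).choose 3 = (d + 1).choose 2 + (d + 1).choose 3 :=
    Nat.choose_succ_succ' (d + 1) 2
  unfold K T
  omega

lemma K_ge (d : ℕ) : d - 1 ≤ K d := by unfold K; omega

theorem main [Fintype C] {K0 : ℕ} (hN : Fintype.card C = 3 ^ K0) :
    ∀ d k, k ≤ K0 → k ≤ K d → SWins C (k + d) k (fun _ => 0) := by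
  intro d
  induction d with
  | zero =>
    intro k _ hk
    have hk0 : k = 0 := by
      have : K 0 = 0 := by decide
      omega
    subst hk0
    rintro A X ⟨hA, hX, -, -⟩
    rw [pow_zero, Finset.card_eq_one] at hA
    obtain ⟨a, rfl⟩ := hA
    refine ⟨.guess a, by simp [Strategy.depth], ?_, ?_⟩
    · intro c hc b
      exact (Finset.mem_singleton.1 hc).symm
    · intro b c hc
      have : X b = ∅ := by
        have := hX b
        simpa using this
      rw [this] at hc
      simp at hc
  | succ d ih =>
    intro k hkK hk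
    rcases Nat.lt_or_ge (K d) k with h1 | h1
    swap
    · exact (ih k hkK h1).mono (by omega)
    rcases Nat.eq_zero_or_pos d with h0 | h0
    · exfalso
      subst h0
      have e0 : K 0 = 0 := by decide
      have e1 : K 1 = 0 := by decide
      rw [Nat.zero_add] at hk
      omega
    have hKs := K_succ h0
    -- states with two suspect sets at level `a`
    have Q : ∀ j a, a + j = d → 1 ≤ a → ∀ k (z : Fin 3), k + T a ≤ K (d + 1) →
        k + a + 1 ≤ K0 → SWins C (k + d + 1) k (fun t => if t = z then 0 else a) := by
      intro j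
      induction j with
      | zero =>
        intro a ha ha1 k z hk1 hk2
        have had : a = d := by omega
        subst had
        exact close_step z (ih k (by omega) (by omega)) (by omega)
      | succ j ihj =>
        intro a ha ha1 k z hk1 hk2
        rcases Nat.lt_or_ge (K d) k with h2 | h2
        swap
        · exact close_step z (ih k (by omega) h2) (by omega)
        · have h3 := K_ge d
          obtain ⟨k', rfl⟩ : ∃ k', k = k' + 1 + a := ⟨k - 1 - a, by omega⟩
          have hT := T_succ a
          have h4 : SWins C (k' + d + 1 + 1) (k' + 1) (fun _ => a) := by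
            apply drop_step
            · rw [hN]
              have h5 : k' + 1 + a + 1 ≤ K0 := by omega
              calc 2 * 3 ^ (k' + 1 + a) ≤ 3 * 3 ^ (k' + 1 + a) := by
                    exact Nat.mul_le_mul_right _ (by norm_num)
                _ = 3 ^ (k' + 1 + a + 1) := by ring
                _ ≤ 3 ^ K0 := Nat.pow_le_pow_right (by norm_num) h5
            · intro z' _
              exact ihj (a + 1) (by omega) (by omega) k' z' (by omega) (by omega)
          have h6 := fill z h4 a le_rfl
          have e1 : k' + d + 1 + 1 + a = k' + 1 + a + d + 1 := by ring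
          rw [Nat.sub_self, e1] at h6
          exact h6
    rcases Nat.lt_or_ge k 2 with hk2 | hk2
    · -- `k = 1`
      have hk1 : k = 1 := by omega
      subst hk1
      have hf : SWins C (0 + d) 0 (fun _ => 0) := ih 0 (by omega) (by omega)
      have h7 := close_one (C := C) (B := 0 + d) (k := 0) (a := 1) hf (by omega)
      have h8 : SWins C (0 + d + 1 + 1) (0 + 1) (fun _ => 0) := by
        refine even_step 0 ?_
        have : Function.update (fun _ : Fin 3 => 0) 0 ((fun _ : Fin 3 => 0) 0 + 1)
            = fun t => if t = 0 then 1 else 0 := by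
          funext t
          fin_cases t <;> rfl
        rw [this]
        exact h7
      exact h8.mono (by omega)
    · obtain ⟨k', rfl⟩ : ∃ k', k = k' + 1 + 1 := ⟨k - 2, by omega⟩
      have hT1 : T 1 = 2 := by decide
      have h9 := Q (d - 1) 1 (by omega) le_rfl k' 2 (by omega) (by omega)
      have h10 : SWins C (k' + d + 1 + 1 + 1) (k' + 1 + 1) (fun _ => 0) := by
        refine even_step 0 (even_step 1 ?_)
        have : Function.update (Function.update (fun _ : Fin 3 => 0) 0
            ((fun _ : Fin 3 => 0) 0 + 1)) 1 ((Function.update (fun _ : Fin 3 => 0) 0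
            ((fun _ : Fin 3 => 0) 0 + 1)) 1 + 1) = fun t => if t = 2 then 0 else 1 := by
          funext t
          fin_cases t <;> rfl
        rw [this]
        exact h9
      exact h10.mono (by omega)

/-! ### Lower bound by counting (at most one lie) -/

/-- Following the correct outcomes for `c` the strategy names `c`. -/
def Strategy.S1 {C : Type} [DecidableEq C] : Strategy C → C → Prop
  | .guess c', c => c' = c
  | .weigh _ L R _ _ next, c => (next (truth L R c)).S1 c

/-- The strategy names `c` as long as at most one outcome is wrong. -/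
def Strategy.S0 {C : Type} [DecidableEq C] : Strategy C → C → Prop
  | .guess c', c => c' = c
  | .weigh _ L R _ _ next, c => (next (truth L R c)).S0 c ∧ ∀ o, (next o).S1 c

lemma Strategy.Succeeds.s1 {T : Strategy C} {c : C} {b : Fin 3} (h : T.Succeeds c b) :
    T.S1 c := by
  induction T with
  | guess c' => exact h
  | weigh s L R hd hc next ih =>
    simp only [Strategy.Succeeds] at h
    simp only [Strategy.S1]
    split_ifs at h with hs
    · exact ih _ (h _)
    · exact ih _ h

lemma Strategy.s0_of_succeeds {T : Strategy C} {c : C} (h : ∀ b, T.Succeeds c b) : T.S0 c := by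
  induction T with
  | guess c' => exact h 0
  | weigh s L R hd hc next ih =>
    simp only [Strategy.Succeeds] at h
    refine ⟨ih _ fun b => ?_, fun o => ?_⟩
    · have := h b
      split_ifs at this with hs
      · exact this _
      · exact this
    · have := h s
      rw [if_pos rfl] at this
      exact (this o).s1

open Classical in
/-- Number of outcome sequences of length `m` reserved for the coin `c`. -/
noncomputable def Strategy.val {C : Type} [DecidableEq C] (T : Strategy C) (m : ℕ) (c : C) : ℕ :=
  if T.S0 c then 2 * m + 1 else if T.S1 c then 1 else 0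

lemma Strategy.S0.s1 {T : Strategy C} {c : C} (h : T.S0 c) : T.S1 c := by
  induction T with
  | guess c' => exact h
  | weigh s L R hd hc next ih => exact h.2 _

lemma val_pos {T : Strategy C} {m : ℕ} {c : C} (h : T.S1 c) : 1 ≤ T.val m c := by
  unfold Strategy.val
  split_ifs <;> omega

lemma val_sum [Fintype C] (T : Strategy C) : ∀ m, T.depth ≤ m → ∑ c, T.val m c ≤ 3 ^ m := by
  induction T with
  | guess c' =>
    intro m _
    have h1 : ∀ c, (Strategy.guess c').val m c = if c = c' then 2 * m + 1 else 0 := by
      intro c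
      by_cases h : c' = c
      · have h0 : (Strategy.guess c').S0 c := h
        unfold Strategy.val
        rw [if_pos h0, if_pos h.symm]
      · have h0 : ¬ (Strategy.guess c').S0 c := h
        have h1 : ¬ (Strategy.guess c').S1 c := h
        unfold Strategy.val
        rw [if_neg h0, if_neg h1, if_neg (Ne.symm h)]
    rw [Finset.sum_congr rfl (fun c _ => h1 c), Finset.sum_ite_eq' Finset.univ c' (fun _ => 2 * m + 1)]
    simp only [Finset.mem_univ, if_true]
    clear h1
    induction m with
    | zero => norm_num
    | succ m ih =>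
      rw [pow_succ]
      have := Nat.one_le_pow m 3 (by norm_num)
      have h2 := ih (by simp [Strategy.depth])
      omega
  | weigh s L R hd hc next ih =>
    intro m hm
    simp only [Strategy.depth] at hm
    obtain ⟨m, rfl⟩ : ∃ k, m = k + 1 := ⟨m - 1, by omega⟩
    have h1 := ih Outcome.left m (by omega)
    have h2 := ih Outcome.right m (by omega)
    have h3 := ih Outcome.balance m (by omega)
    have h4 : ∀ c, (Strategy.weigh s L R hd hc next).val (m + 1) c
        ≤ (next Outcome.left).val m c + (next Outcome.right).val m c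
          + (next Outcome.balance).val m c := by
      intro c
      by_cases h0 : (Strategy.weigh s L R hd hc next).S0 c
      · have e : (Strategy.weigh s L R hd hc next).val (m + 1) c = 2 * (m + 1) + 1 := by
          unfold Strategy.val; rw [if_pos h0]
        rw [e]
        have hS := h0.1
        have hl := val_pos (m := m) (h0.2 Outcome.left)
        have hr := val_pos (m := m) (h0.2 Outcome.right)
        have hb := val_pos (m := m) (h0.2 Outcome.balance)
        have ht : (next (truth L R c)).val m c = 2 * m + 1 := by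
          unfold Strategy.val; rw [if_pos hS]
        cases ho : truth L R c with
        | left => rw [ho] at ht; omega
        | right => rw [ho] at ht; omega
        | balance => rw [ho] at ht; omega
      · by_cases h5 : (Strategy.weigh s L R hd hc next).S1 c
        · have e : (Strategy.weigh s L R hd hc next).val (m + 1) c = 1 := by
            unfold Strategy.val; rw [if_neg h0, if_pos h5]
          rw [e]
          have ht := val_pos (m := m) (T := next (truth L R c)) h5
          cases ho : truth L R c with
          | left => rw [ho] at ht; omega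
          | right => rw [ho] at ht; omega
          | balance => rw [ho] at ht; omega
        · have e : (Strategy.weigh s L R hd hc next).val (m + 1) c = 0 := by
            unfold Strategy.val; rw [if_neg h0, if_neg h5]
          rw [e]
          exact Nat.zero_le _
    calc ∑ c, (Strategy.weigh s L R hd hc next).val (m + 1) c
        ≤ ∑ c, ((next Outcome.left).val m c + (next Outcome.right).val m c
          + (next Outcome.balance).val m c) := Finset.sum_le_sum fun c _ => h4 c
      _ = ∑ c, (next Outcome.left).val m c + ∑ c, (next Outcome.right).val m c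
          + ∑ c, (next Outcome.balance).val m c := by
          rw [Finset.sum_add_distrib, Finset.sum_add_distrib]
      _ ≤ 3 ^ m + 3 ^ m + 3 ^ m := by omega
      _ = 3 ^ (m + 1) := by ring

lemma counting [Fintype C] {T : Strategy C} {m : ℕ} (hd : T.depth ≤ m)
    (h : ∀ c b, T.Succeeds c b) : Fintype.card C * (2 * m + 1) ≤ 3 ^ m := by
  refine le_trans (le_of_eq ?_) (val_sum T m hd)
  have : ∀ c, T.val m c = 2 * m + 1 := by
    intro c
    unfold Strategy.val
    rw [if_pos (Strategy.s0_of_succeeds (h c))]
  rw [Finset.sum_congr rfl (fun c _ => this c), Finset.sum_const, Finset.card_univ, smul_eq_mul]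

/-! ### The result -/

lemma w_le {n d : ℕ} (h : 2 * n ≤ K d) : w n ≤ 2 * n + d := by
  obtain ⟨T, h1, h2, -⟩ := main (C := Fin (3 ^ (2 * n))) (K0 := 2 * n) (by simp) d (2 * n) le_rfl h
    Finset.univ (fun _ => ∅) ⟨by simp, by simp, by simp, by simp⟩
  exact Nat.sInf_le ⟨T, h1, fun c b => h2 c (Finset.mem_univ _) b⟩

lemma six_choose (d : ℕ) : 6 * (d + 1).choose 3 + d = d ^ 3 := by
  induction d with
  | zero => rfl
  | succ d ih =>
    have h1 : (d + 1 + 1).choose 3 = (d + 1).choose 2 + (d + 1).choose 3 :=
      Nat.choose_succ_succ' (d + 1) 2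
    have h2 : 2 * (d + 1).choose 2 = (d + 1) * d := by
      have := Nat.triangle_succ d
      rw [Nat.choose_two_right, Nat.add_sub_cancel]
      exact Nat.mul_div_cancel' (Nat.even_mul_pred_self (d + 1)).two_dvd
    rw [h1]
    have h3 : (d + 1) ^ 3 = d ^ 3 + 3 * ((d + 1) * d) + 1 := by ring
    rw [h3, ← ih, ← h2]
    ring

lemma le_K_of_cube {n d : ℕ} (h : 12 * n ≤ d ^ 3) : 2 * n ≤ K d := by
  have h1 := six_choose d
  unfold K
  rcases Nat.lt_or_ge d 2 with h2 | h2
  · interval_cases d
    · omega
    · have : n = 0 := by omega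
      omega
  · omega

lemma w_le_K_ge {n : ℕ} : n ≤ K (n + 1) := by
  unfold K; omega

lemma w_spec (n : ℕ) : 3 ^ (2 * n) * (2 * w n + 1) ≤ 3 ^ w n := by
  have hne : {m | ∃ T : Strategy (Fin (3 ^ (2 * n))), T.depth ≤ m ∧
      ∀ c b, T.Succeeds c b}.Nonempty := by
    obtain ⟨T, h1, h2, -⟩ := main (C := Fin (3 ^ (2 * n))) (K0 := 2 * n) (by simp) (2 * n + 1)
      (2 * n) le_rfl w_le_K_ge Finset.univ (fun _ => ∅) ⟨by simp, by simp, by simp, by simp⟩
    exact ⟨_, T, h1, fun c b => h2 c (Finset.mem_univ _) b⟩
  obtain ⟨T, h1, h2⟩ := Nat.sInf_mem hne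
  have := counting h1 h2
  rw [Fintype.card_fin] at this
  exact this

lemma w_ge {n m : ℕ} (h : ∀ j < m, ¬ (3 ^ (2 * n) * (2 * j + 1) ≤ 3 ^ j)) : m ≤ w n := by
  by_contra hlt
  exact h _ (by omega) (w_spec n)

theorem result :
    (∀ n d : ℕ, 2 * n ≤ (d + 1).choose 3 + d - 1 → w n ≤ 2 * n + d) ∧
    (∀ n d : ℕ, 12 * n ≤ d ^ 3 → w n ≤ 2 * n + d) ∧
    (∀ n : ℕ, 3 ≤ n → w n < 3 * n + 1) ∧
    (∀ n : ℕ, 3 ^ (2 * n) * (2 * w n + 1) ≤ 3 ^ w n) ∧
    w 3 = 9 ∧ w 6 = 16 ∧ (w 4 = 11 ∨ w 4 = 12) ∧ (w 5 = 13 ∨ w 5 = 14) ∧
    (∀ n : ℕ, 7 ≤ n → n ≤ 12 → w n = 2 * n + 4 ∨ w n = 2 * n + 5) := by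
  refine ⟨fun n d h => w_le h, fun n d h => w_le (le_K_of_cube h), ?_, w_spec, ?_, ?_, ?_, ?_, ?_⟩
  · intro n hn
    have h1 : 2 * n ≤ K n := by
      have h2 : ∀ j, 2 * (j + 3) ≤ K (j + 3) := by
        intro j
        induction j with
        | zero => decide
        | succ j ih =>
          have h3 := K_succ (d := j + 3) (by omega)
          have h4 : 1 ≤ (j + 3 + 1).choose 2 := Nat.choose_pos (by omega)
          have h5 : T (j + 3) = (j + 3 + 1).choose 2 + 1 := rfl
          have h6 : j + 1 + 3 = j + 3 + 1 := by ring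
          rw [h6]
          omega
      obtain ⟨j, rfl⟩ : ∃ j, n = j + 3 := ⟨n - 3, by omega⟩
      exact h2 j
    have := w_le h1
    omega
  · have h1 := w_le (n := 3) (d := 3) (by decide)
    have h2 := w_ge (n := 3) (m := 9) (by decide)
    omega
  · have h1 := w_le (n := 6) (d := 4) (by decide)
    have h2 := w_ge (n := 6) (m := 16) (by decide)
    omega
  · have h1 := w_le (n := 4) (d := 4) (by decide)
    have h2 := w_ge (n := 4) (m := 11) (by decide)
    omega
  · have h1 := w_le (n := 5) (d := 4) (by decide)
    have h2 := w_ge (n := 5) (m := 13) (by decide)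
    omega
  · intro n h7 h12
    have h1 : w n ≤ 2 * n + 5 := w_le (by
      have : K 5 = 24 := by decide
      omega)
    have h2 : 2 * n + 4 ≤ w n := by
      interval_cases n
      · exact w_ge (by decide)
      · exact w_ge (by decide)
      · exact w_ge (by decide)
      · exact w_ge (by decide)
      · exact w_ge (by decide)
      · exact w_ge (by decide)
    omega

end Pool.Agent.Results.MP_a3b474_co.ThreeScales
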